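import Mathlib

/-! Several complex variables, first tools (two variables): the Cauchy integral with a parameter is
jointly analytic, Osgood lemma, Hartogs figures. -/

open Complex Metric Set MeasureTheory Filter Topology

namespace Pool.Agent.SCV

/-- The circle, parametrised. -/
noncomputable def cpar (c : ℂ) (r : ℝ) (hr : 0 ≤ r) : C(ℝ, sphere c r) :=
  ⟨fun θ => ⟨circleMap c r θ, circleMap_mem_sphere c hr θ⟩,
    (continuous_circleMap c r).subtype_mk _⟩

/-- The circle integral as a continuous linear functional on the space of continuous functions. -/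
noncomputable def circInt (c : ℂ) (r : ℝ) (hr : 0 ≤ r) : C(sphere c r, ℂ) →L[ℂ] ℂ :=
  LinearMap.mkContinuous
    { toFun := fun φ => ∫ θ in (0 : ℝ)..2 * Real.pi, deriv (circleMap c r) θ * φ (cpar c r hr θ)
      map_add' := by
        intro φ ψ
        have hc : ∀ χ : C(sphere c r, ℂ), IntervalIntegrable
            (fun θ : ℝ => deriv (circleMap c r) θ * χ (cpar c r hr θ)) volume 0 (2 * Real.pi) := by
          intro χ
          apply Continuous.intervalIntegrable
          simp only [deriv_circleMap]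
          fun_prop
        rw [← intervalIntegral.integral_add (hc φ) (hc ψ)]
        congr 1
        ext θ
        simp [mul_add]
      map_smul' := by
        intro a φ
        simp only [RingHom.id_apply, smul_eq_mul]
        rw [← intervalIntegral.integral_const_mul]
        congr 1
        ext θ
        simp only [ContinuousMap.coe_smul, Pi.smul_apply, smul_eq_mul]
        ring }
    (2 * Real.pi * r)
    (by
      intro φ
      simp only [LinearMap.coe_mk, AddHom.coe_mk]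
      have h := intervalIntegral.norm_integral_le_of_norm_le_const (a := (0 : ℝ)) (b := 2 * Real.pi)
        (f := fun θ : ℝ => deriv (circleMap c r) θ * φ (cpar c r hr θ)) (C := r * ‖φ‖) (by
          intro θ _
          rw [norm_mul, deriv_circleMap, norm_mul, norm_I, mul_one, norm_circleMap_zero,
            abs_of_nonneg hr]
          exact mul_le_mul_of_nonneg_left (φ.norm_coe_le_norm _) hr)
      have hpi : |2 * Real.pi - 0| = 2 * Real.pi := by
        rw [sub_zero, abs_of_pos Real.two_pi_pos]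
      rw [hpi] at h
      calc _ ≤ _ := h
        _ = _ := by ring)

theorem circInt_apply (c : ℂ) (r : ℝ) (hr : 0 ≤ r) (φ : C(sphere c r, ℂ)) (f : ℂ → ℂ)
    (h : ∀ ζ : sphere c r, φ ζ = f ζ) : circInt c r hr φ = ∮ z in C(c, r), f z := by
  unfold circInt circleIntegral
  simp only [LinearMap.mkContinuous_apply, LinearMap.coe_mk, AddHom.coe_mk, smul_eq_mul]
  congr 1
  ext θ
  rw [h]
  rfl

/-- The Cauchy kernel as a function with values in the algebra of continuous functions. -/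
noncomputable def kern (c : ℂ) (r : ℝ) (w : ℂ) : C(sphere c r, ℂ) :=
  Ring.inverse ((⟨fun ζ => (ζ : ℂ), continuous_subtype_val⟩ : C(sphere c r, ℂ)) - w • 1)

theorem kern_unit (c : ℂ) (r : ℝ) (w : ℂ) (hw : w ∈ ball c r) :
    ∃ u : (C(sphere c r, ℂ))ˣ, (u : C(sphere c r, ℂ)) =
      (⟨fun ζ => (ζ : ℂ), continuous_subtype_val⟩ : C(sphere c r, ℂ)) - w • 1 ∧
      ∀ ζ, (↑u⁻¹ : C(sphere c r, ℂ)) ζ = ((ζ : ℂ) - w)⁻¹ := by
  have hne : ∀ ζ : sphere c r, (ζ : ℂ) - w ≠ 0 := by
    intro ζ h0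
    have h1 : (ζ : ℂ) = w := sub_eq_zero.1 h0
    have h2 := ζ.2
    rw [mem_sphere] at h2
    rw [mem_ball] at hw
    rw [h1] at h2
    linarith
  have hcont : Continuous (fun ζ : sphere c r => ((ζ : ℂ) - w)⁻¹) :=
    (continuous_subtype_val.sub continuous_const).inv₀ hne
  refine ⟨⟨(⟨fun ζ => (ζ : ℂ), continuous_subtype_val⟩ : C(sphere c r, ℂ)) - w • 1,
    ⟨fun ζ => ((ζ : ℂ) - w)⁻¹, hcont⟩, ?_, ?_⟩, rfl, fun ζ => rfl⟩
  · ext ζ
    simp [mul_inv_cancel₀ (hne ζ)]
  · ext ζ
    simp [inv_mul_cancel₀ (hne ζ)]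

theorem kern_apply (c : ℂ) (r : ℝ) (w : ℂ) (hw : w ∈ ball c r) (ζ : sphere c r) :
    kern c r w ζ = ((ζ : ℂ) - w)⁻¹ := by
  obtain ⟨u, hu, hu2⟩ := kern_unit c r w hw
  unfold kern
  rw [← hu, Ring.inverse_unit, hu2]

theorem analyticAt_kern (c : ℂ) (r : ℝ) (w : ℂ) (hw : w ∈ ball c r) :
    AnalyticAt ℂ (kern c r) w := by
  obtain ⟨u, hu, -⟩ := kern_unit c r w hw
  have h1 : AnalyticAt ℂ (fun w : ℂ =>
      (⟨fun ζ => (ζ : ℂ), continuous_subtype_val⟩ : C(sphere c r, ℂ)) - w • 1) w :=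
    analyticAt_const.sub (analyticAt_id.smul analyticAt_const)
  have h2 : AnalyticAt ℂ (Ring.inverse : C(sphere c r, ℂ) → C(sphere c r, ℂ))
      ((⟨fun ζ => (ζ : ℂ), continuous_subtype_val⟩ : C(sphere c r, ℂ)) - w • 1) := by
    rw [← hu]
    exact analyticAt_inverse u
  exact AnalyticAt.fun_comp (g := Ring.inverse) (f := fun w : ℂ =>
      (⟨fun ζ => (ζ : ℂ), continuous_subtype_val⟩ : C(sphere c r, ℂ)) - w • 1) h2 h1

/-- Cauchy integral of an analytic family of continuous functions on the circle. -/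
theorem analyticAt_pairing {X : Type*} [NormedAddCommGroup X] [NormedSpace ℂ X]
    (c : ℂ) (r : ℝ) (hr : 0 ≤ r) (Φ : X → C(sphere c r, ℂ)) (x : X) (w : ℂ)
    (hΦ : AnalyticAt ℂ Φ x) (hw : w ∈ ball c r) :
    AnalyticAt ℂ (fun p : X × ℂ => circInt c r hr (kern c r p.2 * Φ p.1)) (x, w) := by
  have h1 : AnalyticAt ℂ (fun p : X × ℂ => kern c r p.2) (x, w) :=
    AnalyticAt.fun_comp (analyticAt_kern c r w hw) analyticAt_snd
  have h2 : AnalyticAt ℂ (fun p : X × ℂ => Φ p.1) (x, w) :=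
    AnalyticAt.fun_comp hΦ analyticAt_fst
  have h3 : AnalyticAt ℂ (fun p : X × ℂ => kern c r p.2 * Φ p.1) (x, w) := h1.mul h2
  exact AnalyticAt.fun_comp ((circInt c r hr).analyticAt _) h3

/-- A continuous function holomorphic in the parameter is an analytic family in the sup norm. -/
theorem exists_analytic_family (c : ℂ) (r : ℝ) (V : Set ℂ) (hV : IsOpen V) (f : ℂ × ℂ → ℂ)
    (hf : ContinuousOn f (V ×ˢ sphere c r))
    (hd : ∀ ζ ∈ sphere c r, DifferentiableOn ℂ (fun x => f (x, ζ)) V) :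
    ∃ Φ : ℂ → C(sphere c r, ℂ), AnalyticOnNhd ℂ Φ V ∧ ∀ x ∈ V, ∀ ζ, Φ x ζ = f (x, ζ) := by
  classical
  have hcx : ∀ x ∈ V, Continuous (fun ζ : sphere c r => f (x, ζ)) := by
    intro x hx
    have : ContinuousOn (fun ζ : ℂ => f (x, ζ)) (sphere c r) :=
      hf.comp (by fun_prop) (fun ζ hζ => ⟨hx, hζ⟩)
    exact this.domRestrict
  let Φ : ℂ → C(sphere c r, ℂ) := fun x => if h : x ∈ V then ⟨_, hcx x h⟩ else 0
  have hΦ : ∀ x ∈ V, ∀ ζ, Φ x ζ = f (x, ζ) := by
    intro x hx ζ
    simp only [Φ, dif_pos hx]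
    rfl
  have hcont : ContinuousOn Φ V := by
    rw [continuousOn_iff_continuous_domRestrict]
    have hc2 : Continuous (fun p : V × sphere c r => f (p.1, p.2)) := by
      have : ContinuousOn f (V ×ˢ sphere c r) := hf
      exact this.comp_continuous (by fun_prop) (fun p => ⟨p.1.2, p.2.2⟩)
    have he : V.domRestrict Φ = fun x => ContinuousMap.curry ⟨_, hc2⟩ x := by
      funext x
      ext ζ
      rw [domRestrict_apply, hΦ x.1 x.2 ζ]
      rfl
    rw [he]
    exact (ContinuousMap.curry ⟨_, hc2⟩).continuous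
  refine ⟨Φ, ?_, hΦ⟩
  intro x0 hx0
  obtain ⟨s, hs, hsV⟩ := nhds_basis_closedBall.mem_iff.1 (hV.mem_nhds hx0)
  have hsph : sphere x0 s ⊆ V := sphere_subset_closedBall.trans hsV
  have hci : CircleIntegrable Φ x0 s := (hcont.mono hsph).circleIntegrable hs.le
  have hA := hasFPowerSeriesOn_cauchy_integral (R := ⟨s, hs.le⟩) hci hs
  have hA2 := hA.analyticAt
  refine hA2.congr ?_
  filter_upwards [ball_mem_nhds x0 hs] with x hx
  ext ζ
  have hxV : x ∈ V := hsV (ball_subset_closedBall hx)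
  rw [hΦ x hxV ζ]
  have hL : ((2 * Real.pi * I : ℂ)⁻¹ • ∮ z in C(x0, s), (z - x)⁻¹ • Φ z) ζ =
      (2 * Real.pi * I : ℂ)⁻¹ • ∮ z in C(x0, s), (z - x)⁻¹ • f (z, ζ) := by
    rw [ContinuousMap.coe_smul, Pi.smul_apply]
    congr 1
    have hint : CircleIntegrable (fun z => (z - x)⁻¹ • Φ z) x0 s := by
      apply ContinuousOn.circleIntegrable hs.le
      refine ContinuousOn.fun_smul ?_ (hcont.mono hsph)
      apply ContinuousOn.inv₀ (by fun_prop)
      intro z hz h0
      have h1 : z = x := sub_eq_zero.1 h0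
      rw [mem_sphere] at hz
      rw [mem_ball, ← h1] at hx
      linarith
    have h2 : (ContinuousMap.evalCLM ℂ ζ) (∮ z in C(x0, s), (z - x)⁻¹ • Φ z) =
        ∮ z in C(x0, s), (z - x)⁻¹ • (Φ z ζ) := by
      unfold circleIntegral
      rw [← ContinuousLinearMap.intervalIntegral_comp_comm _ hint.out]
      rfl
    have h3 : (∮ z in C(x0, s), (z - x)⁻¹ • Φ z) ζ =
        (ContinuousMap.evalCLM ℂ ζ) (∮ z in C(x0, s), (z - x)⁻¹ • Φ z) := rfl
    rw [h3, h2]
    apply circleIntegral.integral_congr hs.le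
    intro z hz
    simp only
    rw [hΦ z (hsph hz)]
  have hgoal : ((2 * Real.pi * I : ℂ)⁻¹ • ∮ z in C(x0, s), (z - x)⁻¹ • Φ z) ζ = f (x, ζ) := by
    rw [hL]
    have h4 : (∮ z in C(x0, s), (z - x)⁻¹ • f (z, (ζ : ℂ))) = (2 * Real.pi * I : ℂ) • f (x, ζ) :=
      DifferentiableOn.circleIntegral_sub_inv_smul ((hd ζ ζ.2).mono hsV) hx
    rw [h4, smul_smul, inv_mul_cancel₀ two_pi_I_ne_zero, one_smul]
  exact hgoal

/-- **Cauchy integral with a parameter is jointly analytic.** -/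
theorem analyticOnNhd_cauchy (c : ℂ) (r : ℝ) (hr : 0 ≤ r) (V : Set ℂ) (hV : IsOpen V)
    (f : ℂ × ℂ → ℂ) (hf : ContinuousOn f (V ×ˢ sphere c r))
    (hd : ∀ ζ ∈ sphere c r, DifferentiableOn ℂ (fun x => f (x, ζ)) V) :
    AnalyticOnNhd ℂ (fun p : ℂ × ℂ =>
      (2 * Real.pi * I : ℂ)⁻¹ • ∮ ζ in C(c, r), (ζ - p.2)⁻¹ • f (p.1, ζ)) (V ×ˢ ball c r) := by
  obtain ⟨Φ, hΦ, hΦ2⟩ := exists_analytic_family c r V hV f hf hd
  intro p hp
  have h1 := (analyticAt_const (𝕜 := ℂ) (v := (2 * Real.pi * I : ℂ)⁻¹)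
    (x := (p.1, p.2))).smul (analyticAt_pairing c r hr Φ p.1 p.2 (hΦ p.1 hp.1) hp.2)
  refine h1.congr ?_
  have hop : IsOpen (V ×ˢ ball c r) := hV.prod isOpen_ball
  filter_upwards [hop.mem_nhds hp] with q hq
  simp only [Pi.smul_apply']
  congr 1
  apply circInt_apply
  intro ζ
  rw [ContinuousMap.mul_apply, kern_apply c r q.2 hq.2, hΦ2 q.1 hq.1, smul_eq_mul]

/-- Cauchy formula in the second variable. -/
theorem cauchy_snd (c : ℂ) (r : ℝ) (f : ℂ × ℂ → ℂ) (x w : ℂ)
    (hd : DifferentiableOn ℂ (fun w => f (x, w)) (closedBall c r)) (hw : w ∈ ball c r) :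
    (2 * Real.pi * I : ℂ)⁻¹ • ∮ ζ in C(c, r), (ζ - w)⁻¹ • f (x, ζ) = f (x, w) := by
  have h4 : (∮ ζ in C(c, r), (ζ - w)⁻¹ • f (x, ζ)) = (2 * Real.pi * I : ℂ) • f (x, w) :=
    DifferentiableOn.circleIntegral_sub_inv_smul hd hw
  rw [h4, smul_smul, inv_mul_cancel₀ two_pi_I_ne_zero, one_smul]

/-- **Osgood lemma**: a continuous, separately holomorphic function of two variables is jointly
analytic. -/
theorem osgood (U : Set (ℂ × ℂ)) (hU : IsOpen U) (f : ℂ × ℂ → ℂ) (hf : ContinuousOn f U)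
    (h1 : ∀ p ∈ U, DifferentiableAt ℂ (fun x => f (x, p.2)) p.1)
    (h2 : ∀ p ∈ U, DifferentiableAt ℂ (fun w => f (p.1, w)) p.2) :
    AnalyticOnNhd ℂ f U := by
  intro p hp
  obtain ⟨r, hr, hrU⟩ := nhds_basis_closedBall.mem_iff.1 (hU.mem_nhds hp)
  rw [← closedBall_prod_same] at hrU
  have hA := analyticOnNhd_cauchy p.2 r hr.le (ball p.1 r) isOpen_ball f
    (hf.mono (fun q hq => hrU ⟨ball_subset_closedBall hq.1, sphere_subset_closedBall hq.2⟩))
    (by
      intro ζ hζ x hx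
      exact (h1 (x, ζ) (hrU ⟨ball_subset_closedBall hx,
        sphere_subset_closedBall hζ⟩)).differentiableWithinAt)
  refine (hA p ⟨mem_ball_self hr, mem_ball_self hr⟩).congr ?_
  have hop : IsOpen (ball p.1 r ×ˢ ball p.2 r) := isOpen_ball.prod isOpen_ball
  filter_upwards [hop.mem_nhds (show p ∈ ball p.1 r ×ˢ ball p.2 r from
    ⟨mem_ball_self hr, mem_ball_self hr⟩)] with q hq
  apply cauchy_snd p.2 r f q.1 q.2 _ hq.2
  intro w hw
  exact (h2 (q.1, w) (hrU ⟨ball_subset_closedBall hq.1, hw⟩)).differentiableWithinAt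

/-- A complex differentiable function of two variables is analytic. -/
theorem differentiableOn_analyticOnNhd (U : Set (ℂ × ℂ)) (hU : IsOpen U) (f : ℂ × ℂ → ℂ)
    (hf : DifferentiableOn ℂ f U) : AnalyticOnNhd ℂ f U := by
  apply osgood U hU f hf.continuousOn
  · intro p hp
    have h := (hf p hp).differentiableAt (hU.mem_nhds hp)
    have h2 : DifferentiableAt ℂ (fun x : ℂ => (x, p.2)) p.1 := by fun_prop
    exact DifferentiableAt.comp p.1 (g := f) (f := fun x : ℂ => (x, p.2)) h h2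
  · intro p hp
    have h := (hf p hp).differentiableAt (hU.mem_nhds hp)
    have h2 : DifferentiableAt ℂ (fun w : ℂ => (p.1, w)) p.2 := by fun_prop
    exact DifferentiableAt.comp p.2 (g := f) (f := fun w : ℂ => (p.1, w)) h h2

/-- Locally uniform limits (along any nontrivial filter) of analytic functions of two variables are
analytic. -/
theorem analyticOnNhd_of_tendstoLocallyUniformlyOn {ι : Type*} {l : Filter ι} [l.NeBot]
    (U : Set (ℂ × ℂ)) (hU : IsOpen U) (F : ι → ℂ × ℂ → ℂ) (f : ℂ × ℂ → ℂ)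
    (hF : ∀ i, AnalyticOnNhd ℂ (F i) U) (h : TendstoLocallyUniformlyOn F f l U) :
    AnalyticOnNhd ℂ f U := by
  have hc : ContinuousOn f U :=
    h.continuousOn (Filter.Frequently.of_forall fun i => (hF i).continuousOn)
  apply osgood U hU f hc
  · intro p hp
    have hop : IsOpen ((fun x : ℂ => (x, p.2)) ⁻¹' U) := hU.preimage (by fun_prop)
    have h3 : TendstoLocallyUniformlyOn (fun i x => F i (x, p.2)) (fun x => f (x, p.2)) l
        ((fun x : ℂ => (x, p.2)) ⁻¹' U) :=
      h.comp (fun x : ℂ => (x, p.2)) (mapsTo_preimage _ _) (by fun_prop)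
    have h4 : DifferentiableOn ℂ (fun x => f (x, p.2)) ((fun x : ℂ => (x, p.2)) ⁻¹' U) := by
      apply h3.differentiableOn _ hop
      refine Filter.Eventually.of_forall fun i x hx => ?_
      have h5 := (hF i (x, p.2) hx).differentiableAt
      exact (DifferentiableAt.comp x (g := F i) (f := fun x : ℂ => (x, p.2)) h5
        (by fun_prop)).differentiableWithinAt
    exact (h4 p.1 hp).differentiableAt (hop.mem_nhds hp)
  · intro p hp
    have hop : IsOpen ((fun w : ℂ => (p.1, w)) ⁻¹' U) := hU.preimage (by fun_prop)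
    have h3 : TendstoLocallyUniformlyOn (fun i w => F i (p.1, w)) (fun w => f (p.1, w)) l
        ((fun w : ℂ => (p.1, w)) ⁻¹' U) :=
      h.comp (fun w : ℂ => (p.1, w)) (mapsTo_preimage _ _) (by fun_prop)
    have h4 : DifferentiableOn ℂ (fun w => f (p.1, w)) ((fun w : ℂ => (p.1, w)) ⁻¹' U) := by
      apply h3.differentiableOn _ hop
      refine Filter.Eventually.of_forall fun i w hw => ?_
      have h5 := (hF i (p.1, w) hw).differentiableAt
      exact (DifferentiableAt.comp w (g := F i) (f := fun w : ℂ => (p.1, w)) h5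
        (by fun_prop)).differentiableWithinAt
    exact (h4 p.2 hp).differentiableAt (hop.mem_nhds hp)

end Pool.Agent.SCV
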