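import Mathlib
import Pool.Agent.Lib.SCV.Osgood

/-! Hartogs figures and the continuity principle along a family of discs (two variables). -/

open Complex Metric Set MeasureTheory Filter Topology

namespace Pool.Agent.SCV

/-- **Hartogs figure.**  `f` is analytic on the open set `U`, which contains `S x sphere` and
`{s0} x closedBall`.  Then there is `g`, analytic on `S x ball`, which agrees with `f` over a
neighbourhood of `s0`, and near the sphere over every point of `S`. -/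
theorem hartogs_figure (U : Set (ℂ × ℂ)) (hU : IsOpen U) (f : ℂ × ℂ → ℂ)
    (hf : AnalyticOnNhd ℂ f U) (S : Set ℂ) (hS : IsOpen S) (hSc : IsPreconnected S)
    (c : ℂ) (r : ℝ) (hr : 0 < r) (hSU : S ×ˢ sphere c r ⊆ U) (s0 : ℂ) (hs0 : s0 ∈ S)
    (hs0U : ∀ w ∈ closedBall c r, (s0, w) ∈ U) :
    ∃ g : ℂ × ℂ → ℂ, AnalyticOnNhd ℂ g (S ×ˢ ball c r) ∧
      (∀ᶠ s in 𝓝 s0, ∀ w ∈ ball c r, (s, w) ∈ U ∧ g (s, w) = f (s, w)) ∧
      (∀ s1 ∈ S, ∃ ε > 0, ∀ᶠ s in 𝓝 s1, ∀ w ∈ ball c r, r - ε < dist w c →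
        (s, w) ∈ U ∧ g (s, w) = f (s, w)) := by
  have hdiff1 : ∀ p ∈ U, DifferentiableAt ℂ (fun x => f (x, p.2)) p.1 := by
    intro p hp
    have h5 := (hf p hp).differentiableAt
    exact DifferentiableAt.comp p.1 (g := f) (f := fun x : ℂ => (x, p.2)) h5 (by fun_prop)
  have hdiff2 : ∀ p ∈ U, DifferentiableAt ℂ (fun w => f (p.1, w)) p.2 := by
    intro p hp
    have h5 := (hf p hp).differentiableAt
    exact DifferentiableAt.comp p.2 (g := f) (f := fun w : ℂ => (p.1, w)) h5 (by fun_prop)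
  have hgA := analyticOnNhd_cauchy c r hr.le S hS f (hf.continuousOn.mono hSU) (by
    intro ζ hζ x hx
    exact (hdiff1 (x, ζ) (hSU ⟨hx, hζ⟩)).differentiableWithinAt)
  set g : ℂ × ℂ → ℂ := fun p =>
    (2 * Real.pi * I : ℂ)⁻¹ • ∮ ζ in C(c, r), (ζ - p.2)⁻¹ • f (p.1, ζ) with hg
  -- points `s` whose closed disc lies in `U`
  have hdisc : ∀ s, (∀ w ∈ closedBall c r, (s, w) ∈ U) → ∀ w ∈ ball c r, g (s, w) = f (s, w) := by
    intro s hs w hw
    apply cauchy_snd c r f s w _ hw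
    intro w' hw'
    exact (hdiff2 (s, w') (hs w' hw')).differentiableWithinAt
  have hnear : ∀ᶠ s in 𝓝 s0, ∀ w ∈ closedBall c r, (s, w) ∈ U := by
    have := (isCompact_closedBall c r)
    have h1 : ({s0} : Set ℂ) ×ˢ closedBall c r ⊆ U := by
      rintro ⟨a, b⟩ ⟨ha, hb⟩
      have ha' : a = s0 := ha
      rw [ha']
      exact hs0U b hb
    obtain ⟨u, v, hu, hv, hsu, hcv, huv⟩ := generalized_tube_lemma isCompact_singleton this hU h1
    filter_upwards [hu.mem_nhds (hsu rfl)] with s hs w hw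
    exact huv ⟨hs, hcv hw⟩
  refine ⟨g, hgA, ?_, ?_⟩
  · filter_upwards [hnear] with s hs w hw
    exact ⟨hs w (ball_subset_closedBall hw), hdisc s hs w hw⟩
  · set E : Set ℂ := {s1 | ∃ ε > 0, ∀ᶠ s in 𝓝 s1, ∀ w ∈ ball c r, r - ε < dist w c →
        (s, w) ∈ U ∧ g (s, w) = f (s, w)} with hE
    have hEo : IsOpen E := by
      rw [isOpen_iff_mem_nhds]
      rintro s1 ⟨ε, hε, h⟩
      filter_upwards [eventually_eventually_nhds.2 h] with s hs
      exact ⟨ε, hε, hs⟩
    have hs0E : s0 ∈ E := by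
      refine ⟨1, one_pos, ?_⟩
      filter_upwards [hnear] with s hs w hw _
      exact ⟨hs w (ball_subset_closedBall hw), hdisc s hs w hw⟩
    have hcl : closure E ∩ S ⊆ E := by
      rintro s1 ⟨hs1c, hs1S⟩
      -- a tube around `{s1} x sphere`
      have h1 : ({s1} : Set ℂ) ×ˢ sphere c r ⊆ U := by
        rintro ⟨a, b⟩ ⟨ha, hb⟩
        have ha' : a = s1 := ha
        rw [ha']
        exact hSU ⟨hs1S, hb⟩
      obtain ⟨u, v, hu, hv, hsu, hcv, huv⟩ :=
        generalized_tube_lemma isCompact_singleton (isCompact_sphere c r) hU h1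
      obtain ⟨δ, hδ, hδu⟩ := nhds_basis_ball.mem_iff.1
        (Filter.inter_mem (hu.mem_nhds (hsu rfl)) (hS.mem_nhds hs1S))
      obtain ⟨ε1, hε1, hε1v⟩ : ∃ ε1 > 0, ∀ w ∈ ball c r, r - ε1 < dist w c → w ∈ v := by
        obtain ⟨ε1, hε1, h2⟩ := (isCompact_sphere c r).exists_thickening_subset_open hv hcv
        refine ⟨min ε1 r, lt_min hε1 hr, fun w hw hwd => h2 ?_⟩
        have hwc : 0 < dist w c := by
          have := min_le_right ε1 r
          linarith
        rw [mem_ball] at hw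
        rw [mem_thickening_iff]
        refine ⟨c + ((r / dist w c : ℝ) : ℂ) * (w - c), ?_, ?_⟩
        · rw [mem_sphere, dist_eq_norm, add_sub_cancel_left, norm_mul, norm_real, Real.norm_eq_abs,
            abs_of_pos (by positivity), ← dist_eq_norm, div_mul_cancel₀ _ hwc.ne']
        · have he : w - (c + ((r / dist w c : ℝ) : ℂ) * (w - c)) =
              ((1 - r / dist w c : ℝ) : ℂ) * (w - c) := by
            push_cast
            ring
          rw [dist_eq_norm, he, norm_mul, norm_real, ← dist_eq_norm w c, Real.norm_eq_abs,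
            abs_of_nonpos, neg_sub, sub_mul, div_mul_cancel₀ _ hwc.ne', one_mul]
          · have := min_le_left ε1 r
            linarith
          · rw [sub_nonpos, le_div_iff₀ hwc]
            linarith
      obtain ⟨s2, hs2E, hs2⟩ := Metric.mem_closure_iff.1 hs1c δ hδ |>.imp fun s h => h
      obtain ⟨ε2, hε2, hev⟩ := hs2E
      refine ⟨min ε1 ε2, lt_min hε1 hε2, ?_⟩
      filter_upwards [ball_mem_nhds s1 hδ] with s hs w hw hwd
      have hwv : w ∈ v := hε1v w hw (by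
        have := min_le_left ε1 ε2
        linarith)
      refine ⟨huv ⟨(hδu hs).1, hwv⟩, ?_⟩
      have hA1 : AnalyticOnNhd ℂ (fun s => g (s, w)) (ball s1 δ) := by
        intro a ha
        exact AnalyticAt.fun_comp (g := g) (f := fun s : ℂ => (s, w))
          (hgA (a, w) ⟨(hδu ha).2, hw⟩) (analyticAt_id.prod analyticAt_const)
      have hA2 : AnalyticOnNhd ℂ (fun s => f (s, w)) (ball s1 δ) := by
        intro a ha
        exact AnalyticAt.fun_comp (g := f) (f := fun s : ℂ => (s, w))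
          (hf (a, w) (huv ⟨(hδu ha).1, hwv⟩)) (analyticAt_id.prod analyticAt_const)
      have hs2b : s2 ∈ ball s1 δ := by rw [mem_ball, dist_comm]; exact hs2
      have hee : (fun s => g (s, w)) =ᶠ[𝓝 s2] fun s => f (s, w) := by
        filter_upwards [hev] with a ha
        exact (ha w hw (by
          have := min_le_right ε1 ε2
          linarith)).2
      exact hA1.eqOn_of_preconnected_of_eventuallyEq hA2 (convex_ball s1 δ).isPreconnected
        hs2b hee hs
    intro s1 hs1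
    exact hSc.subset_of_closure_inter_subset hEo ⟨s0, hs0, hs0E⟩ hcl hs1

/-- **Continuity principle** along the discs `w -> (s + h w, w)`, `|w - c| <= r`: if the boundary
circles (for all `s` in the connected open set `S`) and one whole disc (`s = s0`) lie in `U`, then
`f` extends analytically to the union of the open discs. -/
theorem disc_family (U : Set (ℂ × ℂ)) (hU : IsOpen U) (f : ℂ × ℂ → ℂ)
    (hf : AnalyticOnNhd ℂ f U) (h : ℂ → ℂ) (hh : Differentiable ℂ h)
    (S : Set ℂ) (hS : IsOpen S) (hSc : IsPreconnected S)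
    (c : ℂ) (r : ℝ) (hr : 0 < r) (hSU : ∀ s ∈ S, ∀ w ∈ sphere c r, (s + h w, w) ∈ U)
    (s0 : ℂ) (hs0 : s0 ∈ S) (hs0U : ∀ w ∈ closedBall c r, (s0 + h w, w) ∈ U) :
    ∃ g : ℂ × ℂ → ℂ, AnalyticOnNhd ℂ g {p | p.1 - h p.2 ∈ S ∧ p.2 ∈ ball c r} ∧
      (∀ᶠ s in 𝓝 s0, ∀ w ∈ ball c r, (s + h w, w) ∈ U ∧ g (s + h w, w) = f (s + h w, w)) ∧
      (∀ s1 ∈ S, ∃ ε > 0, ∀ᶠ s in 𝓝 s1, ∀ w ∈ ball c r, r - ε < dist w c →
        (s + h w, w) ∈ U ∧ g (s + h w, w) = f (s + h w, w)) := by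
  have hσ : ∀ p : ℂ × ℂ, AnalyticAt ℂ (fun p : ℂ × ℂ => (p.1 + h p.2, p.2)) p := by
    intro p
    refine AnalyticAt.prod (analyticAt_fst.add ?_) analyticAt_snd
    exact AnalyticAt.fun_comp (g := h) (f := fun p : ℂ × ℂ => p.2) (hh.analyticAt _)
      analyticAt_snd
  have hσc : Continuous (fun p : ℂ × ℂ => (p.1 + h p.2, p.2)) := by
    have := hh.continuous
    fun_prop
  have hτ : ∀ p : ℂ × ℂ, AnalyticAt ℂ (fun p : ℂ × ℂ => (p.1 - h p.2, p.2)) p := by
    intro p
    refine AnalyticAt.prod (analyticAt_fst.sub ?_) analyticAt_snd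
    exact AnalyticAt.fun_comp (g := h) (f := fun p : ℂ × ℂ => p.2) (hh.analyticAt _)
      analyticAt_snd
  obtain ⟨g, hg1, hg2, hg3⟩ := hartogs_figure ((fun p : ℂ × ℂ => (p.1 + h p.2, p.2)) ⁻¹' U)
    (hU.preimage hσc) (fun p => f (p.1 + h p.2, p.2))
    (by
      intro p hp
      exact AnalyticAt.fun_comp (g := f) (f := fun p : ℂ × ℂ => (p.1 + h p.2, p.2)) (hf _ hp) (hσ p))
    S hS hSc c r hr (by
      rintro ⟨a, b⟩ ⟨ha, hb⟩
      exact hSU a ha b hb) s0 hs0 (by
      intro w hw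
      exact hs0U w hw)
  refine ⟨fun p => g (p.1 - h p.2, p.2), ?_, ?_, ?_⟩
  · intro p hp
    exact AnalyticAt.fun_comp (g := g) (f := fun p : ℂ × ℂ => (p.1 - h p.2, p.2))
      (hg1 (p.1 - h p.2, p.2) ⟨hp.1, hp.2⟩) (hτ p)
  · filter_upwards [hg2] with s hs w hw
    obtain ⟨h1, h2⟩ := hs w hw
    refine ⟨h1, ?_⟩
    simp only [add_sub_cancel_right]
    exact h2
  · intro s1 hs1
    obtain ⟨ε, hε, h3⟩ := hg3 s1 hs1
    refine ⟨ε, hε, ?_⟩
    filter_upwards [h3] with s hs w hw hwd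
    obtain ⟨h1, h2⟩ := hs w hw hwd
    refine ⟨h1, ?_⟩
    simp only [add_sub_cancel_right]
    exact h2

/-- identity theorem, convenient form: two functions analytic on the open sets `U`, `W`, which agree
near one point of the preconnected set `V`, agree on `V`. -/
theorem eqOn_of_preconnected {U W V : Set (ℂ × ℂ)} {f g : ℂ × ℂ → ℂ}
    (hf : AnalyticOnNhd ℂ f U) (hg : AnalyticOnNhd ℂ g W) (hV : IsPreconnected V)
    (hVU : V ⊆ U) (hVW : V ⊆ W) {p : ℂ × ℂ} (hp : p ∈ V) (h : f =ᶠ[𝓝 p] g) : EqOn f g V :=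
  (hf.mono hVU).eqOn_of_preconnected_of_eventuallyEq (hg.mono hVW) hV hp h

end Pool.Agent.SCV
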